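import Pool.Agent.Helper28_MNU.MAIN
import Pool.Agent.Helper28_MNT.ASM
import Pool.Agent.Helper1_MNT.ULT
import Pool.Agent.Helper77_MNU.HB2
import Pool.Agent.Helper91_MNU.HBE
import Pool.Agent.Helper13_MNU.TRG
import Pool.Agent.Helper41_MNU.CNU
import Pool.Agent.Helper13_MNU.OTE
import Pool.Agent.Helper24_MNU.LOU
import Pool.Agent.Helper15_MNU.NBE
import Pool.Agent.Helper38_MNU.HGU
import Pool.Agent.Helper69_MNU.FNU
import Pool.Agent.Helper16_MNU.GPR
import Pool.Agent.Helper34_MNU.PRP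
import Pool.Agent.Helper67_MNU.TJS
import Pool.Agent.Helper90_MNU.BCJ
import Pool.Agent.Helper65_MNU.HSI
import Pool.Agent.Helper41_MNU.MOI
import Pool.Agent.Helper20_MNU.CNE
import Pool.Agent.Helper31_MNU.CFM
import Pool.Agent.Helper83_MNU.QEE
import Pool.Agent.Helper83_MNU.NEE
import Pool.Agent.Helper82_MNU.NOE
import Pool.Agent.Helper44_MNU.TRX
import Pool.Agent.Helper86_MNU.MOB
import Pool.Agent.Helper81_UBT.Bc2

set_option autoImplicit false

/-!
# MNU: all rows put together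
-/

namespace Pool.Agent.MNU.All

open Pool.Agent.MNT Pool.Agent.MNU

theorem hb2 : Hb2Stmt := H77.hb2 MNT.All.idj
theorem hbe : HbeStmt := H91.hbe hb2 MNT.H50.lg2 MNT.H52.lgn
theorem cnu : CnuStmt := H41.cnu
theorem ote : OteStmt := H13.ote MNT.H47.thn MNT.All.oda
theorem nbe : NbeStmt := H15.nbe
theorem gpr : GprStmt := H16.gpr
theorem prp : PrpStmt := H34.prp
theorem hsi : HsiStmt := H65.hsi
theorem moi : MoiStmt := H41.moi
theorem cne : CneStmt := H20.cne UBT.ext1
theorem bcj : BcjStmt := H90.bcj H76UBT.bc1 UBT.bc2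
theorem trg : TrgStmt := H13.trg MNT.H77.res MNT.All.flo MNT.H50.sbp MNT.H30.hed MNT.All.idj hbe
  H83.qee H83N.nee H82.noe
theorem trx : TrxStmt := H44.trx trg MNT.H24.lpa MNT.H62.lks MNT.All.lgu MNT.H46.lft MNT.H82.enl
theorem rep : MNT.RepStmt := MNT.All.rep MNT.H1.ult
theorem lou : LouStmt := H24.lou trx MNT.All.vlm rep cnu
theorem mob_ : MobStmt := H86.mob_

end Pool.Agent.MNU.All
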