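import Pool.Agent.MNU.StmtsU
import Pool.Agent.MNU.Final
import Pool.Agent.Helper28_MNT.MAIN

set_option autoImplicit false

/-!
# MNU: assembly of the final theorem
-/

namespace Pool.Agent.MNU.H28

open Polynomial NumberField
open Pool.Agent.MNT Pool.Agent.MNU

theorem QR_eq (g : ℕ) : QR g = Finset.univ.map (Function.Embedding.inl (α := Fin (2 * g + 1))
    (β := Fin (2 * g + 9))) := by
  ext p
  rcases p with p | p
  · simp [QR]
  · simp [QR]

theorem inl_mem (g : ℕ) (j : Fin (2 * g + 1)) : (Sum.inl j : QI g) ∈ QR g := by simp [QR]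

theorem inr_notMem (g : ℕ) (i : Fin (2 * g + 9)) : (Sum.inr i : QI g) ∉ QR g := by simp [QR]

theorem FF_elim {K : Type} [Field K] (g : ℕ) (e : K) (θ : Fin (2 * g + 1) → K)
    (x : Fin (2 * g + 9) → K) :
    FF e (QR g) (Sum.elim θ x) = C e * ∏ j, (X - C (θ j)) := by
  rw [FF, QR_eq, Finset.prod_map]
  rfl

theorem cfg_of {K : Type} [Field K] [CharZero K] (hpel : PelStmt) (g : ℕ) (f : K[X])
    (hd : f.natDegree = 2 * g + 1) (hsq : Squarefree f)
    (x y : Fin (2 * g + 9) → K) (hx : Function.Injective x) (hon : ∀ i, y i ^ 2 = f.eval (x i))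
    (hne : ∀ i, y i ≠ 0) (htor : ∀ i, ∃ N, TorB f (x i) (y i) N) (e : K)
    (θ : Fin (2 * g + 1) → K) (hf : f = C e * ∏ j, (X - C (θ j))) :
    Cfg g (Sum.elim θ x) e := by
  have hf0 : f ≠ 0 := hsq.ne_zero
  have he : e ≠ 0 := by
    rintro rfl
    rw [C_0, zero_mul] at hf
    exact hf0 hf
  have hroot : ∀ j, f.eval (θ j) = 0 := by
    intro j
    rw [hf, eval_mul, eval_prod]
    rw [Finset.prod_eq_zero (Finset.mem_univ j) (by simp), mul_zero]
  have hθ : Function.Injective θ := by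
    intro j k hjk
    by_contra hne'
    have h1 : (X - C (θ j)) * (X - C (θ j)) ∣ f := by
      rw [hf]
      apply Dvd.dvd.mul_left
      rw [← Finset.mul_prod_erase _ _ (Finset.mem_univ j)]
      apply mul_dvd_mul_left
      have h2 : k ∈ Finset.univ.erase j := Finset.mem_erase.2 ⟨fun h => hne' h.symm,
        Finset.mem_univ k⟩
      rw [← Finset.mul_prod_erase _ _ h2, ← hjk]
      exact dvd_mul_right _ _
    have h3 := hsq _ h1
    exact not_isUnit_X_sub_C _ h3
  refine ⟨?_, he, ?_⟩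
  · rw [Sum.elim_injective]
    refine ⟨hθ, hx, ?_⟩
    intro j i h
    apply hne i
    have h1 := hon i
    rw [← h, hroot j] at h1
    exact pow_eq_zero_iff (two_ne_zero) |>.1 h1
  · rintro (j | i) hp
    · exact absurd (inl_mem g j) hp
    · rw [FF_elim, ← hf]
      obtain ⟨N, hN⟩ := htor i
      obtain ⟨U, W, c, h⟩ := hpel K f (x i) (y i) N two_ne_zero (hd ▸ ⟨g, rfl⟩) (hon i) (hne i) hN
      exact ⟨N, U, W, c, h⟩

theorem main (hpel : PelStmt) (hh : HguStmt) (hf : FnuStmt) (ht : TjsStmt) (hb : BcjStmt)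
    (hs : SpuStmt) (hc : CfmStmt) (g : ℕ) (hg : 2 ≤ g) :
    HeightBound g ∧ FinitelyMany g ∧ TorsionBound g ∧ DegreeBound g := by
  refine ⟨?_, ?_, ?_, ?_⟩
  · intro K _ _ C x y hC e θ hfe
    exact hh g hg K _ e (cfg_of hpel g C.f hC.deg C.sqfree x y hC.inj hC.on hC.ne
      (fun i => (tor_iff C _ _).1 (hC.tor i)) e θ hfe)
  · intro d
    obtain ⟨S, hS⟩ := hf g hg (d * (2 * g + 1).factorial)
    refine ⟨S, ?_⟩
    intro K _ _ hK C x y hC φ
    obtain ⟨E, _, _, _, e, θ, hE, hfe, hconf⟩ := hs g K C.f hC.deg C.sqfree x y hC.inj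
      hC.on hC.ne (fun i => (tor_iff C _ _).1 (hC.tor i))
    have hE' : Module.finrank ℚ E ≤ d * (2 * g + 1).factorial :=
      hE.trans (Nat.mul_le_mul_right _ hK)
    let _ : Algebra K (AlgebraicClosure ℚ) := φ.toAlgebra
    have _ : Algebra.IsAlgebraic K E := by
      have _ : IsScalarTower ℚ K E := inferInstance
      exact Algebra.IsAlgebraic.tower_top (K := ℚ) K
    let ψ : E →ₐ[K] AlgebraicClosure ℚ := IsAlgClosed.lift
    have hψ : ∀ a : K, ψ (algebraMap K E a) = φ a := fun a => ψ.commutes a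
    obtain ⟨s, hs', μ, ν, hμ, hp⟩ := hS E hE' _ e hconf ψ.toRingHom
    have hp' : ∀ p, ψ (Sum.elim θ (fun i => algebraMap K E (x i)) p) = μ * s p + ν := hp
    refine ⟨s, hs', μ, ν, hμ, ?_, ?_⟩
    · intro i
      have := hp' (Sum.inr i)
      rw [Sum.elim_inr, hψ] at this
      exact this
    · have h3 : C.f.map φ = (C.f.map (algebraMap K E)).map ψ.toRingHom := by
        rw [Polynomial.map_map]
        congr 1
        ext a
        exact (hψ a).symm
      have h4 : (C.f.map (algebraMap K E)).map ψ.toRingHom =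
          Polynomial.C (ψ e) * ∏ j, (X - Polynomial.C (μ * s (Sum.inl j) + ν)) := by
        rw [hfe, Polynomial.map_mul, Polynomial.map_C, Polynomial.map_prod]
        congr 1
        refine Finset.prod_congr rfl fun j _ => ?_
        rw [Polynomial.map_sub, Polynomial.map_X, Polynomial.map_C]
        have := hp' (Sum.inl j)
        rw [Sum.elim_inl] at this
        rw [← this]
        rfl
      have he : ψ e ≠ 0 := (_root_.map_ne_zero ψ).2 hconf.e_ne
      rw [h3, h4, Polynomial.roots_C_mul _ he]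
      have h5 : (∏ j, (X - Polynomial.C (μ * s (Sum.inl j) + ν))) =
          ((Finset.univ.val.map fun j => μ * s (Sum.inl j) + ν).map
            fun a => X - Polynomial.C a).prod := by
        rw [Multiset.map_map]
        rfl
      rw [h5, Polynomial.roots_multiset_prod_X_sub_C]
  · intro d
    obtain ⟨B, hB⟩ := ht g hg (d * (2 * g + 1).factorial)
    refine ⟨B, ?_⟩
    intro K _ _ hK C x y hC c hc'
    obtain ⟨E, _, _, _, e, θ, hE, hfe, hconf⟩ := hs g K C.f hC.deg C.sqfree x y hC.inj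
      hC.on hC.ne (fun i => (tor_iff C _ _).1 (hC.tor i))
    have hE' : Module.finrank ℚ E ≤ d * (2 * g + 1).factorial :=
      hE.trans (Nat.mul_le_mul_right _ hK)
    let C' : UBT.OddCurve E :=
      { f := C.f.map (algebraMap K E)
        odd := by rw [natDegree_map, hC.deg]; exact ⟨g, rfl⟩
        sqfree := (PerfectField.separable_iff_squarefree.2 C.sqfree).map.squarefree }
    obtain ⟨c', hcc⟩ := hb K E (algebraMap K E) C C' rfl c
    have hfin : IsOfFinOrder c' := by
      rw [← orderOf_pos_iff, hcc]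
      exact hc'.orderOf_pos
    rw [← hcc]
    refine hB E hE' _ e hconf C' ?_ c' hfin
    rw [FF_elim, ← hfe]
  · intro d
    obtain ⟨B, hB⟩ := hc g hg d
    refine ⟨B, ?_⟩
    intro K M _ _ _ _ _ hM f Y α β γ δ hY x y hxy hx hmin htor c hc'
    refine hB K M hM f Y α β γ δ ⟨hY.deg_le, hY.deg_Y, hY.det, ?_⟩ x y hxy hx hmin htor c hc'
    obtain ⟨e, he, h⟩ := hY.eq
    refine ⟨e, he, ?_⟩
    rw [h]
    unfold mob
    congr 1
    refine Finset.sum_congr rfl fun i _ => ?_
    rw [Polynomial.coeff_map]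

end Pool.Agent.MNU.H28
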